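import Mathlib

/-! Spreading models as in MP_4fad3e_an: definitions. -/

set_option autoImplicit false

universe u v

namespace Pool.Agent.Helper36.OWN

open Filter Topology

/-- `x` is a basic sequence (Grunblum's criterion). -/
def IsBasic {X : Type u} [NormedAddCommGroup X] [NormedSpace ℝ X] (x : ℕ → X) : Prop :=
  (∀ n, x n ≠ 0) ∧ ∃ K : ℝ, ∀ (a : ℕ → ℝ) (m n : ℕ), m ≤ n →
    ‖∑ i ∈ Finset.range m, a i • x i‖ ≤ K * ‖∑ i ∈ Finset.range n, a i • x i‖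

/-- `x` is normalized and weakly null. -/
def NormalizedWeaklyNull {X : Type u} [NormedAddCommGroup X] [NormedSpace ℝ X] (x : ℕ → X) :
    Prop :=
  (∀ n, ‖x n‖ = 1) ∧ ∀ f : X →L[ℝ] ℝ, Tendsto (fun n => f (x n)) atTop (𝓝 0)

/-- `x` generates `y` as a spreading model. -/
def Generates {X : Type u} [NormedAddCommGroup X] [NormedSpace ℝ X] {Y : Type v}
    [NormedAddCommGroup Y] [NormedSpace ℝ Y] (x : ℕ → X) (y : ℕ → Y) : Prop :=
  ∃ ε : ℕ → ℝ, (∀ n, 0 < ε n) ∧ Antitone ε ∧ Tendsto ε atTop (𝓝 0) ∧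
    ∀ (n : ℕ) (a : Fin (n + 1) → ℝ) (k : Fin (n + 1) → ℕ), (∀ i, |a i| ≤ 1) → StrictMono k →
      n ≤ k 0 →
      (1 + ε n)⁻¹ * ‖∑ i : Fin (n + 1), a i • y i‖ ≤ ‖∑ i, a i • x (k i)‖ ∧
        ‖∑ i, a i • x (k i)‖ ≤ (1 + ε n) * ‖∑ i : Fin (n + 1), a i • y i‖

/-- The series `∑ a n • y n` converges. -/
def Converges {Y : Type u} [NormedAddCommGroup Y] [NormedSpace ℝ Y] (y : ℕ → Y) (a : ℕ → ℝ) :
    Prop :=
  ∃ s : Y, Tendsto (fun m => ∑ n ∈ Finset.range m, a n • y n) atTop (𝓝 s)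

/-- The sequences `y` and `z` are equivalent. -/
def Equivalent {Y : Type u} [NormedAddCommGroup Y] [NormedSpace ℝ Y] {Z : Type v}
    [NormedAddCommGroup Z] [NormedSpace ℝ Z] (y : ℕ → Y) (z : ℕ → Z) : Prop :=
  ∀ a : ℕ → ℝ, Converges y a ↔ Converges z a

end Pool.Agent.Helper36.OWN
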