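import Pool.Agent.Helper51.USM.FIN
import Pool.Agent.Helper36.OWN.SMDefs

/-! Spreading models of Helper51's space in the literal sense of MP_4fad3e_an. -/

set_option autoImplicit false

universe u v

namespace Pool.Agent.Helper36.OWN

open Filter Topology

/-- extension of a tuple of coefficients by zeros -/
def extA {k : ℕ} (b : Fin k → ℝ) (i : ℕ) : ℝ := if h : i < k then b ⟨i, h⟩ else 0

/-- extension of a tuple of indices -/
def extN {k : ℕ} (n : Fin (k + 1) → ℕ) (i : ℕ) : ℕ :=
  if h : i < k + 1 then n ⟨i, h⟩ else n ⟨k, Nat.lt_succ_self k⟩ + i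

theorem extN_strictMono {k : ℕ} {n : Fin (k + 1) → ℕ} (hn : StrictMono n) :
    StrictMono (extN n) := by
  apply strictMono_nat_of_lt_succ
  intro i
  unfold extN
  by_cases h : i + 1 < k + 1
  · rw [dif_pos (show i < k + 1 by omega), dif_pos h]
    apply hn
    show i < i + 1
    omega
  · rw [dif_neg h]
    by_cases h' : i < k + 1
    · rw [dif_pos h']
      have : (⟨i, h'⟩ : Fin (k + 1)) = ⟨k, Nat.lt_succ_self k⟩ := by
        apply Fin.ext
        show i = k
        omega
      rw [this]; omega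
    · rw [dif_neg h']; omega

theorem sum_ext {E : Type u} [AddCommGroup E] [Module ℝ E] {k m : ℕ} (hk : k ≤ m)
    (b : Fin k → ℝ) (g : ℕ → E) :
    ∑ i : Fin m, extA b i • g i = ∑ i : Fin k, b i • g i := by
  rw [Fin.sum_univ_eq_sum_range (fun i => extA b i • g i) m]
  rw [← Finset.sum_subset (Finset.range_subset_range.2 hk)]
  · rw [← Fin.sum_univ_eq_sum_range (fun i => extA b i • g i) k]
    refine Finset.sum_congr rfl fun i _ => ?_
    unfold extA
    rw [dif_pos i.2]
  · intro i _ hi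
    rw [Finset.mem_range] at hi
    unfold extA
    rw [dif_neg hi, zero_smul]

/-- A literal spreading model is a spreading model in the sense of norms. -/
theorem Generates.sm {Y : Type v} [NormedAddCommGroup Y] [NormedSpace ℝ Y] {x : ℕ → USM.XS}
    {y : ℕ → Y} (h : Generates x y) (hx : NormalizedWeaklyNull x) :
    USM.SM x (fun k a => ‖∑ i : Fin k, a i • y i‖) := by
  refine ⟨hx.1, hx.2, ?_⟩
  obtain ⟨ε, hε0, -, hεt, hg⟩ := h
  intro k a η hη
  rcases Nat.eq_zero_or_pos k with rfl | hk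
  · refine ⟨0, fun n _ _ => ?_⟩
    simpa using hη
  obtain ⟨k, rfl⟩ : ∃ j, k = j + 1 := ⟨k - 1, by omega⟩
  set S : ℝ := ‖∑ i : Fin (k + 1), a i • y i‖ with hS
  have hS0 : 0 ≤ S := norm_nonneg _
  set R : ℝ := 1 + ∑ i, |a i| with hR
  have hsum0 : 0 ≤ ∑ i, |a i| := Finset.sum_nonneg fun i _ => abs_nonneg _
  have hR0 : 0 < R := by positivity
  obtain ⟨m0, hm0⟩ := (Metric.tendsto_atTop.1 hεt) (η / (S + 1)) (by positivity)
  refine ⟨max m0 k, fun n hn hmn => ?_⟩
  set m := max m0 k with hm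
  have hεm : ε m < η / (S + 1) := by
    have := hm0 m (le_max_left _ _)
    rw [Real.dist_eq, sub_zero, abs_of_pos (hε0 m)] at this
    exact this
  have hb1 : ∀ i : Fin (m + 1), |extA (fun i => R⁻¹ * a i) i| ≤ 1 := by
    intro i
    unfold extA
    split_ifs with hi
    · rw [abs_mul, abs_of_pos (inv_pos.2 hR0), inv_mul_le_iff₀ hR0, mul_one]
      have := Finset.single_le_sum (f := fun i => |a i|) (fun i _ => abs_nonneg _)
        (Finset.mem_univ (⟨(i : ℕ), hi⟩ : Fin (k + 1)))
      show |a _| ≤ R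
      have h3 : |a ⟨(i : ℕ), hi⟩| ≤ ∑ i, |a i| := this
      linarith
    · simp
  have hmono : StrictMono fun i : Fin (m + 1) => extN n i := by
    intro i j hij
    exact extN_strictMono hn hij
  have h0 : m ≤ extN n ((0 : Fin (m + 1)) : ℕ) := by
    unfold extN
    rw [dif_pos (by simp)]
    exact hmn _
  have key := hg m (fun i => extA (fun i => R⁻¹ * a i) i) (fun i => extN n i) hb1 hmono h0
  have hkm : k + 1 ≤ m + 1 := Nat.succ_le_succ (le_max_right _ _)
  rw [sum_ext hkm (fun i => R⁻¹ * a i) y,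
    sum_ext hkm (fun i => R⁻¹ * a i) (fun i => x (extN n i))] at key
  have e1 : ∑ i : Fin (k + 1), (R⁻¹ * a i) • y i = R⁻¹ • ∑ i : Fin (k + 1), a i • y i := by
    rw [Finset.smul_sum]
    exact Finset.sum_congr rfl fun i _ => mul_smul _ _ _
  have e2 : ∑ i : Fin (k + 1), (R⁻¹ * a i) • x (extN n i) =
      R⁻¹ • ∑ i : Fin (k + 1), a i • x (n i) := by
    rw [Finset.smul_sum]
    refine Finset.sum_congr rfl fun i _ => ?_
    rw [mul_smul]
    congr 3
    unfold extN
    rw [dif_pos i.2]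
  rw [e1, e2, norm_smul, norm_smul, Real.norm_of_nonneg (inv_pos.2 hR0).le, ← hS] at key
  set T : ℝ := ‖∑ i : Fin (k + 1), a i • x (n i)‖ with hT
  have hT0 : 0 ≤ T := norm_nonneg _
  have k1 : S ≤ (1 + ε m) * T := by
    have h1 := key.1
    rw [inv_mul_le_iff₀ (by have := hε0 m; linarith)] at h1
    have h2 : R⁻¹ * S ≤ R⁻¹ * ((1 + ε m) * T) := by linarith
    exact le_of_mul_le_mul_left h2 (inv_pos.2 hR0)
  have k2 : T ≤ (1 + ε m) * S := by
    have h2 : R⁻¹ * T ≤ R⁻¹ * ((1 + ε m) * S) := by linarith [key.2]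
    exact le_of_mul_le_mul_left h2 (inv_pos.2 hR0)
  have k3 : ε m * S < η := by
    have h1 : ε m * (S + 1) < η := by rwa [lt_div_iff₀ (by linarith)] at hεm
    have := hε0 m
    nlinarith
  show |T - S| < η
  rw [abs_lt]
  have hem := hε0 m
  constructor
  · -- S - T < η
    have h1 : S - T ≤ ε m * S := by
      have h3 : (1 - ε m) * S ≤ T := by
        have h4 : (1 - ε m) * S ≤ (1 - ε m ^ 2) * T ∨ 1 - ε m < 0 := by
          by_cases h5 : 0 ≤ 1 - ε m
          · left
            calc (1 - ε m) * S ≤ (1 - ε m) * ((1 + ε m) * T) := mul_le_mul_of_nonneg_left k1 h5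
              _ = _ := by ring
          · right; linarith
        rcases h4 with h4 | h4
        · nlinarith [mul_nonneg (sq_nonneg (ε m)) hT0]
        · nlinarith
      linarith
    linarith
  · linarith [k2]

/-- the model norm on a finite set of indices -/
def PBF (a : ℕ → ℝ) (F : Finset ℕ) (E : ℝ) : Prop :=
  (∀ i ∈ F, |a i| ≤ E) ∧ ∀ (r : ℕ) (B : Finset ℕ), B ⊆ F → B.card ≤ USM.L r →
    USM.w r * ∑ i ∈ B, |a i| ≤ E

theorem pb_of_pbf {a : ℕ → ℝ} {F : Finset ℕ} {E : ℝ} {t : ℕ} (hF : F ⊆ Finset.range t)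
    (hE : 0 ≤ E) (h : PBF a F E) :
    USM.PB (fun i : Fin t => if (i : ℕ) ∈ F then a i else 0) E := by
  constructor
  · intro i
    by_cases hi : (i : ℕ) ∈ F
    · simp only [hi, if_true]; exact h.1 _ hi
    · simp only [hi, if_false, abs_zero]; exact hE
  · intro r B hB
    have h1 := h.2 r ((B.filter fun i : Fin t => (i : ℕ) ∈ F).map Fin.valEmbedding) (by
      intro i hi
      rw [Finset.mem_map] at hi
      obtain ⟨j, hj, rfl⟩ := hi
      exact (Finset.mem_filter.1 hj).2) (by
      rw [Finset.card_map]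
      exact (Finset.card_filter_le _ _).trans hB)
    rw [Finset.sum_map] at h1
    refine le_trans (le_of_eq ?_) h1
    congr 1
    rw [Finset.sum_filter]
    refine Finset.sum_congr rfl fun i _ => ?_
    by_cases hi : (i : ℕ) ∈ F
    · simp [hi]
    · simp [hi]

theorem pbf_of_pb {a : ℕ → ℝ} {F : Finset ℕ} {E : ℝ} {t : ℕ} (hF : F ⊆ Finset.range t)
    (h : USM.PB (fun i : Fin t => if (i : ℕ) ∈ F then a i else 0) E) : PBF a F E := by
  constructor
  · intro i hi
    have := h.1 ⟨i, Finset.mem_range.1 (hF hi)⟩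
    simpa [hi] using this
  · intro r B hB hBc
    have h1 := h.2 r (Finset.univ.filter fun i : Fin t => (i : ℕ) ∈ B) (by
      refine le_trans ?_ hBc
      have : ((Finset.univ.filter fun i : Fin t => (i : ℕ) ∈ B).map Fin.valEmbedding) ⊆ B := by
        intro i hi
        rw [Finset.mem_map] at hi
        obtain ⟨j, hj, rfl⟩ := hi
        exact (Finset.mem_filter.1 hj).2
      have := Finset.card_le_card this
      rwa [Finset.card_map] at this)
    refine le_trans (le_of_eq ?_) h1
    congr 1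
    have e : B = (Finset.univ.filter fun i : Fin t => (i : ℕ) ∈ B).map Fin.valEmbedding := by
      ext i
      rw [Finset.mem_map]
      constructor
      · intro hi
        exact ⟨⟨i, Finset.mem_range.1 (hF (hB hi))⟩, Finset.mem_filter.2 ⟨Finset.mem_univ _, hi⟩, rfl⟩
      · rintro ⟨j, hj, rfl⟩
        exact (Finset.mem_filter.1 hj).2
    conv_lhs => rw [e]
    rw [Finset.sum_map]
    refine Finset.sum_congr rfl fun i hi => ?_
    have : (i : ℕ) ∈ F := hB (Finset.mem_filter.1 hi).2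
    simp [this]

theorem sum_fin_ite {E : Type u} [AddCommGroup E] [Module ℝ E] (a : ℕ → ℝ) (y : ℕ → E)
    {F : Finset ℕ} {t : ℕ} (hF : F ⊆ Finset.range t) :
    ∑ i : Fin t, (if (i : ℕ) ∈ F then a i else 0) • y i = ∑ i ∈ F, a i • y i := by
  rw [Fin.sum_univ_eq_sum_range (fun i => (if i ∈ F then a i else 0) • y i) t]
  rw [← Finset.sum_subset hF]
  · exact Finset.sum_congr rfl fun i hi => by rw [if_pos hi]
  · intro i _ hi
    rw [if_neg hi, zero_smul]

/-- Two sided estimate for the norm of finite sums in a literal spreading model. -/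
theorem Generates.estimate {Y : Type v} [NormedAddCommGroup Y] [NormedSpace ℝ Y]
    {x : ℕ → USM.XS} {y : ℕ → Y} (h : Generates x y) (hx : NormalizedWeaklyNull x) :
    (∀ (a : ℕ → ℝ) (F : Finset ℕ) (E : ℝ), 0 ≤ E → PBF a F E →
      ‖∑ i ∈ F, a i • y i‖ ≤ 36 * E) ∧
    ∃ δ : ℝ, 0 < δ ∧ ∀ (a : ℕ → ℝ) (F : Finset ℕ), PBF a F (‖∑ i ∈ F, a i • y i‖ / δ) := by
  obtain ⟨h1, δ, hδ, h2⟩ := (h.sm hx).model
  have hr : ∀ F : Finset ℕ, F ⊆ Finset.range (F.sup id + 1) := by
    intro F i hi
    rw [Finset.mem_range]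
    have := Finset.le_sup (f := id) hi
    simp only [id] at this
    omega
  constructor
  · intro a F E hE hF
    have h3 : ‖∑ i : Fin (F.sup id + 1), (if (i : ℕ) ∈ F then a i else 0) • y i‖ ≤ 36 * E :=
      h1 _ _ E (pb_of_pbf (hr F) hE hF)
    rwa [sum_fin_ite a y (hr F)] at h3
  · refine ⟨δ, hδ, fun a F => ?_⟩
    have h3 : USM.PB (fun i : Fin (F.sup id + 1) => if (i : ℕ) ∈ F then a i else 0)
        (‖∑ i : Fin (F.sup id + 1), (if (i : ℕ) ∈ F then a i else 0) • y i‖ / δ) :=
      h2 _ (fun i : Fin (F.sup id + 1) => if (i : ℕ) ∈ F then a i else 0)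
    rw [sum_fin_ite a y (hr F)] at h3
    exact pbf_of_pb (hr F) h3

end Pool.Agent.Helper36.OWN
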