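import Pool.Agent.Helper51.USM.FIN
import Pool.Agent.Helper36.OWN.SMDefs

/-! A literal spreading model of Helper51's space. -/

set_option autoImplicit false

universe u v

namespace Pool.Agent.Helper36.OWN

open Filter Topology

/-- finitely supported sequences -/
def C00 : Type := ℕ →₀ ℝ

noncomputable instance : AddCommGroup C00 := inferInstanceAs (AddCommGroup (ℕ →₀ ℝ))
noncomputable instance : Module ℝ C00 := inferInstanceAs (Module ℝ (ℕ →₀ ℝ))

/-- shifted embedding of the finitely supported sequences -/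
noncomputable def TS (m : ℕ) : C00 →ₗ[ℝ] USM.XS :=
  (Finsupp.linearCombination ℝ (fun i => USM.e (i + m)) : (ℕ →₀ ℝ) →ₗ[ℝ] USM.XS)

/-- unit vectors -/
noncomputable def un (i : ℕ) : C00 := (Finsupp.single i (1 : ℝ) : ℕ →₀ ℝ)

theorem TS_un (m i : ℕ) : TS m (un i) = USM.e (i + m) := by
  show Finsupp.linearCombination ℝ (fun i => USM.e (i + m)) (Finsupp.single i (1 : ℝ)) = _
  rw [Finsupp.linearCombination_single, one_smul]

theorem exists_tuple_form (a : C00) : ∃ (k : ℕ) (b : Fin k → ℝ), a = ∑ i : Fin k, b i • un i := by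
  let a' : ℕ →₀ ℝ := a
  have hr : a'.support ⊆ Finset.range (a'.support.sup id + 1) := by
    intro i hi
    rw [Finset.mem_range]
    have := Finset.le_sup (f := id) hi
    simp only [id] at this
    omega
  refine ⟨a'.support.sup id + 1, fun i => a' i, ?_⟩
  have h1 : a' = ∑ i ∈ Finset.range (a'.support.sup id + 1), Finsupp.single i (a' i) := by
    conv_lhs => rw [← Finsupp.sum_single a']
    unfold Finsupp.sum
    apply Finset.sum_subset hr
    intro i _ hi
    rw [Finsupp.notMem_support_iff.1 hi, Finsupp.single_zero]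
  show a' = _
  rw [Fin.sum_univ_eq_sum_range (fun i => a' i • un i)]
  conv_lhs => rw [h1]
  refine Finset.sum_congr rfl fun i _ => ?_
  show _ = a' i • (Finsupp.single i (1 : ℝ) : ℕ →₀ ℝ)
  rw [Finsupp.smul_single, smul_eq_mul, mul_one]

theorem norm_TS {k : ℕ} (b : Fin k → ℝ) (v : Fin k → ℕ) (hv : StrictMono v)
    (hv' : ∀ i, k + 1 ≤ v i) {m : ℕ} (hm : k + 1 ≤ m) :
    ‖TS m (∑ i : Fin k, b i • un i)‖ = ‖∑ i, b i • USM.e (v i)‖ := by
  have h1 : TS m (∑ i : Fin k, b i • un i) = ∑ i : Fin k, b i • USM.e ((i : ℕ) + m) := by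
    rw [map_sum]
    exact Finset.sum_congr rfl fun i _ => by rw [map_smul, TS_un]
  rw [h1]
  have h2 : StrictMono fun i : Fin k => (i : ℕ) + m := fun i j hij =>
    Nat.add_lt_add_right hij m
  have h3 : ∀ i : Fin k, k + 1 ≤ (i : ℕ) + m := fun i => hm.trans (Nat.le_add_left _ _)
  exact le_antisymm (USM.norm_sum_e_le b v (fun i : Fin k => (i : ℕ) + m) hv h2 hv' h3)
    (USM.norm_sum_e_le b (fun i : Fin k => (i : ℕ) + m) v h2 hv h3 hv')

theorem exists_lim (a : C00) : ∃ c : ℝ, Tendsto (fun m => ‖TS m a‖) atTop (𝓝 c) := by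
  obtain ⟨k, b, rfl⟩ := exists_tuple_form a
  refine ⟨‖∑ i : Fin k, b i • USM.e (k + 1 + (i : ℕ))‖, ?_⟩
  apply tendsto_const_nhds.congr'
  filter_upwards [eventually_ge_atTop (k + 1)] with m hm
  exact (norm_TS b (fun i : Fin k => k + 1 + (i : ℕ)) (fun i j hij => Nat.add_lt_add_left hij _)
    (fun i => Nat.le_add_right _ _) hm).symm

noncomputable instance : Norm C00 := ⟨fun a => (exists_lim a).choose⟩

theorem tendsto_norm_TS (a : C00) : Tendsto (fun m => ‖TS m a‖) atTop (𝓝 ‖a‖) :=
  (exists_lim a).choose_spec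

theorem norm_c00 {k : ℕ} (b : Fin k → ℝ) (v : Fin k → ℕ) (hv : StrictMono v)
    (hv' : ∀ i, k + 1 ≤ v i) : ‖∑ i : Fin k, b i • un i‖ = ‖∑ i, b i • USM.e (v i)‖ := by
  refine tendsto_nhds_unique (tendsto_norm_TS _) ?_
  apply tendsto_const_nhds.congr'
  filter_upwards [eventually_ge_atTop (k + 1)] with m hm
  exact (norm_TS b v hv hv' hm).symm

theorem core : SeminormedSpace.Core ℝ C00 where
  norm_nonneg a := ge_of_tendsto' (tendsto_norm_TS a) fun m => norm_nonneg _
  norm_smul c a := by
    refine tendsto_nhds_unique (tendsto_norm_TS (c • a)) ?_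
    have := (tendsto_norm_TS a).const_mul ‖c‖
    refine this.congr fun m => ?_
    rw [map_smul, norm_smul]
  norm_triangle a b := by
    refine le_of_tendsto_of_tendsto' (tendsto_norm_TS (a + b))
      ((tendsto_norm_TS a).add (tendsto_norm_TS b)) fun m => ?_
    rw [map_add]
    exact norm_add_le _ _

noncomputable instance : SeminormedAddCommGroup C00 := SeminormedAddCommGroup.ofCore core

noncomputable instance : NormedSpace ℝ C00 where
  norm_smul_le c a := (core.norm_smul c a).le

/-- the spreading model of the basis -/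
noncomputable def ym (i : ℕ) : UniformSpace.Completion C00 :=
  UniformSpace.Completion.toComplₗᵢ (𝕜 := ℝ) (un i)

theorem norm_ym {k : ℕ} (b : Fin k → ℝ) (v : Fin k → ℕ) (hv : StrictMono v)
    (hv' : ∀ i, k + 1 ≤ v i) : ‖∑ i : Fin k, b i • ym i‖ = ‖∑ i, b i • USM.e (v i)‖ := by
  rw [← norm_c00 b v hv hv']
  have : ∑ i : Fin k, b i • ym i =
      UniformSpace.Completion.toComplₗᵢ (𝕜 := ℝ) (∑ i : Fin k, b i • un i) := by
    rw [map_sum]
    exact Finset.sum_congr rfl fun i _ => by rw [map_smul]; rfl
  rw [this, LinearIsometry.norm_map]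

theorem generates_ym : Generates (fun n => USM.e (n + 2)) ym := by
  refine ⟨fun n => 1 / ((n : ℝ) + 1), fun n => by positivity, ?_,
    tendsto_one_div_add_atTop_nhds_zero_nat, ?_⟩
  · intro m n hmn
    apply one_div_le_one_div_of_le (by positivity)
    have : (m : ℝ) ≤ n := by exact_mod_cast hmn
    linarith
  · intro n a k _ hk hk0
    have h1 : StrictMono fun i => k i + 2 := fun i j hij => Nat.add_lt_add_right (hk hij) 2
    have h2 : ∀ i, n + 1 + 1 ≤ k i + 2 := by
      intro i
      have := hk.monotone (Fin.zero_le i)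
      omega
    rw [norm_ym a (fun i => k i + 2) h1 h2]
    set T : ℝ := ‖∑ i, a i • USM.e (k i + 2)‖ with hT
    have hT0 : 0 ≤ T := norm_nonneg _
    have hε : (0 : ℝ) < 1 / ((n : ℝ) + 1) := by positivity
    constructor
    · rw [inv_mul_le_iff₀ (by linarith)]
      nlinarith
    · nlinarith

theorem nwn_e : NormalizedWeaklyNull (fun n => USM.e (n + 2)) :=
  ⟨fun n => USM.norm_e _, fun f => (USM.weakly_null_e f).comp (tendsto_add_atTop_nat 2)⟩

theorem basic_e : IsBasic (fun n => USM.e (n + 2)) := by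
  constructor
  · intro n h
    have := USM.norm_e (n + 2)
    have h' : USM.e (n + 2) = 0 := h
    rw [h', norm_zero] at this
    exact zero_ne_one this
  · refine ⟨1, fun a m n hmn => ?_⟩
    rw [one_mul]
    set x : USM.XS := ∑ i ∈ Finset.range n, a i • USM.e (i + 2) with hx
    have h1 := USM.norm_blk_le x 2 (m + 2)
    refine le_trans (le_of_eq ?_) h1
    congr 1
    unfold USM.blk
    rw [Finset.sum_Ico_eq_sum_range]
    simp only [Nat.add_sub_cancel]
    refine Finset.sum_congr rfl fun i hi => ?_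
    have hi' : i ∈ Finset.range n := Finset.mem_range.2 ((Finset.mem_range.1 hi).trans_le hmn)
    have h2 : USM.co x (2 + i) = a i := by
      rw [hx, USM.co_sum, Finset.sum_apply, Finset.sum_eq_single i]
      · rw [USM.co_smul, Pi.smul_apply, USM.co_e, add_comm 2 i]
        simp
      · intro j _ hji
        rw [USM.co_smul, Pi.smul_apply, USM.co_e]
        have : 2 + i ≠ j + 2 := by omega
        rw [Pi.single_eq_of_ne this]
        simp
      · intro h
        exact absurd hi' h
    rw [h2, add_comm 2 i]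

theorem separable : TopologicalSpace.SeparableSpace USM.XS := by
  apply TopologicalSpace.isSeparable_univ_iff.1
  have h1 : TopologicalSpace.IsSeparable (closure (Submodule.span ℝ (Set.range USM.e) : Set USM.XS)) :=
    ((Set.countable_range USM.e).isSeparable.span).closure
  apply h1.mono
  intro x _
  refine mem_closure_of_tendsto (USM.tendsto_blk x) (Eventually.of_forall fun n => ?_)
  unfold USM.blk
  exact Submodule.sum_mem _ fun i _ => Submodule.smul_mem _ _ (Submodule.subset_span ⟨i, rfl⟩)

theorem infinite_dim : ¬ FiniteDimensional ℝ USM.XS := by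
  intro h
  have hl : LinearIndependent ℝ USM.e := by
    rw [linearIndependent_iff']
    intro s g hg i hi
    have h1 : USM.co (∑ j ∈ s, g j • USM.e j) i = 0 := by
      rw [hg]; rfl
    rw [USM.co_sum, Finset.sum_apply, Finset.sum_eq_single i] at h1
    · rw [USM.co_smul, Pi.smul_apply, USM.co_e] at h1
      simpa using h1
    · intro j _ hji
      rw [USM.co_smul, Pi.smul_apply, USM.co_e, Pi.single_eq_of_ne hji.symm]
      simp
    · intro h
      exact absurd hi h
  exact Module.Finite.not_linearIndependent_of_infinite USM.e hl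

end Pool.Agent.Helper36.OWN
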