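import Pool.Agent.Helper36.OWN.USMA

/-! Literal spreading models of Helper51's space: uniqueness, not `ℓ_p`, not `c₀`. -/

set_option autoImplicit false

universe u v

namespace Pool.Agent.Helper36.OWN

open Filter Topology

section

variable {Y : Type u} [NormedAddCommGroup Y] [NormedSpace ℝ Y]

theorem Converges.small {y : ℕ → Y} {a : ℕ → ℝ} (h : Converges y a) (η : ℝ) (hη : 0 < η) :
    ∃ M : ℕ, ∀ s t : ℕ, M ≤ s → s ≤ t → ‖∑ n ∈ Finset.Ico s t, a n • y n‖ < η := by
  obtain ⟨c, hc⟩ := h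
  obtain ⟨M, hM⟩ := (Metric.cauchySeq_iff.1 hc.cauchySeq) η hη
  refine ⟨M, fun s t hs hst => ?_⟩
  have := hM t (hs.trans hst) s hs
  rwa [dist_eq_norm, ← Finset.sum_Ico_eq_sub _ hst] at this

theorem converges_of_small [CompleteSpace Y] {y : ℕ → Y} {a : ℕ → ℝ}
    (h : ∀ η : ℝ, 0 < η → ∃ M : ℕ, ∀ s t : ℕ, M ≤ s → s ≤ t →
      ‖∑ n ∈ Finset.Ico s t, a n • y n‖ < η) : Converges y a := by
  apply cauchySeq_tendsto_of_complete
  rw [Metric.cauchySeq_iff']
  intro η hη
  obtain ⟨M, hM⟩ := h η hη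
  refine ⟨M, fun n hn => ?_⟩
  rw [dist_eq_norm, ← Finset.sum_Ico_eq_sub _ hn]
  exact hM M n le_rfl hn

end

/-- uniqueness, one direction -/
theorem transfer {Y : Type u} [NormedAddCommGroup Y] [NormedSpace ℝ Y]
    {Z : Type v} [NormedAddCommGroup Z] [NormedSpace ℝ Z] [CompleteSpace Z]
    {x x' : ℕ → USM.XS} {y : ℕ → Y} {z : ℕ → Z} (hx : NormalizedWeaklyNull x)
    (hx' : NormalizedWeaklyNull x') (h : Generates x y) (h' : Generates x' z) {a : ℕ → ℝ}
    (ha : Converges y a) : Converges z a := by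
  obtain ⟨-, δ, hδ, hlow⟩ := h.estimate hx
  obtain ⟨hup, -⟩ := h'.estimate hx'
  apply converges_of_small
  intro η hη
  obtain ⟨M, hM⟩ := ha.small (η * δ / 36) (by positivity)
  refine ⟨M, fun s t hs hst => ?_⟩
  have h1 := hM s t hs hst
  have h2 := hup a (Finset.Ico s t) _ (by positivity) (hlow a (Finset.Ico s t))
  refine lt_of_le_of_lt h2 ?_
  rw [← mul_div_assoc, div_lt_iff₀ hδ]
  rw [lt_div_iff₀ (by norm_num)] at h1
  linarith

/-! ### Blocks -/

/-- the number of the block of `n` -/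
def rho (n : ℕ) : ℕ := Nat.log 2 (Nat.log 2 n)

theorem le_rho {r n : ℕ} (h : USM.L r ≤ n) : r ≤ rho n := by
  unfold rho
  have h1 : 2 ^ r ≤ Nat.log 2 n := Nat.le_log_of_pow_le (by norm_num) h
  exact Nat.le_log_of_pow_le (by norm_num) h1

theorem lt_L_rho (n : ℕ) : n < USM.L (rho n + 1) := by
  unfold rho USM.L
  have h1 : Nat.log 2 n < 2 ^ (Nat.log 2 (Nat.log 2 n) + 1) :=
    Nat.lt_pow_succ_log_self (by norm_num) _
  have h2 : n < 2 ^ (Nat.log 2 n + 1) := Nat.lt_pow_succ_log_self (by norm_num) _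
  exact lt_of_lt_of_le h2 (Nat.pow_le_pow_right (by norm_num) h1)

theorem rho_block {r n : ℕ} (h : n ∈ Finset.Ico (USM.L r) (USM.L (r + 1))) : rho n = r := by
  rw [Finset.mem_Ico] at h
  apply le_antisymm _ (le_rho h.1)
  by_contra hlt
  rw [not_le] at hlt
  -- n < L (r+1) gives rho n ≤ r
  have h1 : n < 2 ^ (2 ^ (r + 1)) := h.2
  have h2 : Nat.log 2 n < 2 ^ (r + 1) := Nat.log_lt_of_lt_pow (by
    have := USM.L_pos r
    omega) h1
  have h3 : Nat.log 2 (Nat.log 2 n) < r + 1 := by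
    rcases Nat.eq_zero_or_pos (Nat.log 2 n) with h4 | h4
    · rw [h4]; simp
    · exact Nat.log_lt_of_lt_pow (by omega) h2
  unfold rho at hlt
  omega

theorem two_mul_L_le (r : ℕ) : 2 * USM.L r ≤ USM.L (r + 1) := by
  rw [USM.L_succ, sq]
  exact Nat.mul_le_mul_right _ (USM.ones_two_le_L r)

theorem w_mul_card {q r c : ℕ} (h1 : c ≤ USM.L q) (h2 : c ≤ USM.L r) :
    USM.w q * (c : ℝ) ≤ (r : ℝ) + 1 := by
  have hc1 : (c : ℝ) ≤ (USM.L q : ℝ) := by exact_mod_cast h1
  have hc2 : (c : ℝ) ≤ (USM.L r : ℝ) := by exact_mod_cast h2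
  rcases le_total q r with h | h
  · calc USM.w q * (c : ℝ) ≤ USM.w q * (USM.L q : ℝ) :=
          mul_le_mul_of_nonneg_left hc1 (USM.w_pos q).le
      _ = (q : ℝ) + 1 := USM.w_mul_L q
      _ ≤ (r : ℝ) + 1 := by
        have : (q : ℝ) ≤ r := by exact_mod_cast h
        linarith
  · calc USM.w q * (c : ℝ) ≤ USM.w r * (c : ℝ) :=
          mul_le_mul_of_nonneg_right (USM.ones_w_anti h) (Nat.cast_nonneg _)
      _ ≤ USM.w r * (USM.L r : ℝ) := mul_le_mul_of_nonneg_left hc2 (USM.w_pos r).le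
      _ = (r : ℝ) + 1 := USM.w_mul_L r

/-- the coefficients of a series which converges in the model but not in `ℓ_p` -/
noncomputable def cp (n : ℕ) : ℝ := (1 / 2) ^ rho n / ((rho n : ℝ) + 2)

theorem cp_pos (n : ℕ) : 0 < cp n := by unfold cp; positivity

theorem cp_le (n : ℕ) : cp n ≤ (1 / 2) ^ rho n := by
  unfold cp
  apply div_le_self (by positivity)
  have : (0 : ℝ) ≤ rho n := Nat.cast_nonneg _
  linarith

theorem geom_tail (R T : ℕ) : ∑ r ∈ Finset.Ico R T, ((1 : ℝ) / 2) ^ r ≤ 2 * (1 / 2) ^ R := by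
  rcases le_total R T with h | h
  · have : ∑ r ∈ Finset.Ico R T, ((1 : ℝ) / 2) ^ r = 2 * (1 / 2) ^ R - 2 * (1 / 2) ^ T := by
      induction T, h using Nat.le_induction with
      | base => simp
      | succ T hT ih =>
        rw [Finset.sum_Ico_succ_top hT, ih]; ring
    rw [this]
    have : (0 : ℝ) ≤ (1 / 2) ^ T := by positivity
    linarith
  · rw [Finset.Ico_eq_empty_of_le h, Finset.sum_empty]; positivity

theorem pbf_cp {R s t : ℕ} (hs : USM.L R ≤ s) : PBF cp (Finset.Ico s t) (2 * (1 / 2) ^ R) := by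
  have hρ : ∀ i ∈ Finset.Ico s t, R ≤ rho i := fun i hi =>
    le_rho (hs.trans (Finset.mem_Ico.1 hi).1)
  have hpos : (0 : ℝ) < (1 / 2) ^ R := by positivity
  constructor
  · intro i hi
    rw [abs_of_pos (cp_pos i)]
    calc cp i ≤ (1 / 2) ^ rho i := cp_le i
      _ ≤ (1 / 2) ^ R := pow_le_pow_of_le_one (by norm_num) (by norm_num) (hρ i hi)
      _ ≤ _ := by linarith
  · intro q B hB hBc
    set T := B.sup rho + 1 with hT
    have hmaps : ∀ i ∈ B, rho i ∈ Finset.Ico R T := by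
      intro i hi
      rw [Finset.mem_Ico]
      refine ⟨hρ i (hB hi), ?_⟩
      have := Finset.le_sup (f := rho) hi
      omega
    rw [← Finset.sum_fiberwise_of_maps_to hmaps, Finset.mul_sum]
    refine le_trans (Finset.sum_le_sum fun r hr => ?_) (geom_tail R T)
    have h1 : ∑ i ∈ B.filter (fun i => rho i = r), |cp i| =
        ((B.filter (fun i => rho i = r)).card : ℝ) * ((1 / 2) ^ r / ((r : ℝ) + 2)) := by
      rw [← nsmul_eq_mul, ← Finset.sum_const]
      refine Finset.sum_congr rfl fun i hi => ?_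
      rw [abs_of_pos (cp_pos i)]
      unfold cp
      rw [(Finset.mem_filter.1 hi).2]
    have h2 : (B.filter (fun i => rho i = r)).card ≤ USM.L (r + 1) := by
      have : B.filter (fun i => rho i = r) ⊆ Finset.range (USM.L (r + 1)) := by
        intro i hi
        rw [Finset.mem_range]
        have := lt_L_rho i
        rwa [(Finset.mem_filter.1 hi).2] at this
      have := Finset.card_le_card this
      rwa [Finset.card_range] at this
    have h3 := w_mul_card ((Finset.card_filter_le B (fun i => rho i = r)).trans hBc) h2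
    rw [h1, ← mul_assoc]
    have h4 : (0 : ℝ) ≤ (1 / 2) ^ r / ((r : ℝ) + 2) := by positivity
    calc USM.w q * ((B.filter (fun i => rho i = r)).card : ℝ) * ((1 / 2) ^ r / ((r : ℝ) + 2))
        ≤ (((r + 1 : ℕ) : ℝ) + 1) * ((1 / 2) ^ r / ((r : ℝ) + 2)) :=
          mul_le_mul_of_nonneg_right h3 h4
      _ = (1 / 2) ^ r := by
        push_cast
        field_simp
        ring

theorem sq_le_two_pow {r : ℕ} (h : 4 ≤ r) : r ^ 2 ≤ 2 ^ r := by
  induction r, h using Nat.le_induction with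
  | base => norm_num
  | succ r hr ih =>
    rw [pow_succ 2 r]
    nlinarith

/-- the blocks are long -/
theorem long_block {m r : ℕ} (h : m + 4 ≤ r) :
    (2 ^ r * (r + 2)) ^ m ≤ USM.L (r + 1) - USM.L r := by
  have h1 : r + 2 ≤ 2 ^ (r + 1) := by
    have : r < 2 ^ r := Nat.lt_two_pow_self
    rw [pow_succ]; omega
  have h2 : (2 ^ r * (r + 2)) ^ m ≤ 2 ^ ((2 * r + 1) * m) := by
    rw [pow_mul]
    apply Nat.pow_le_pow_left
    calc 2 ^ r * (r + 2) ≤ 2 ^ r * 2 ^ (r + 1) := Nat.mul_le_mul_left _ h1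
      _ = 2 ^ (2 * r + 1) := by rw [← pow_add]; congr 1; ring
  have h3 : (2 * r + 1) * m + 1 ≤ 2 ^ (r + 1) := by
    have := sq_le_two_pow (show 4 ≤ r by omega)
    rw [pow_succ 2 r]
    nlinarith
  have h4 : 2 * 2 ^ ((2 * r + 1) * m) ≤ USM.L (r + 1) := by
    unfold USM.L
    calc 2 * 2 ^ ((2 * r + 1) * m) = 2 ^ ((2 * r + 1) * m + 1) := by rw [pow_succ]; ring
      _ ≤ _ := Nat.pow_le_pow_right (by norm_num) h3
  have h5 := two_mul_L_le r
  omega

/-- the unit vectors of `ℓ_p` -/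
noncomputable def unitLp (p : ENNReal) [Fact (1 ≤ p)] (n : ℕ) : lp (fun _ : ℕ => ℝ) p :=
  lp.single (E := fun _ : ℕ => ℝ) p n (1 : ℝ)

theorem smul_unit (p : ENNReal) [Fact (1 ≤ p)] (c : ℝ) (n : ℕ) :
    c • unitLp p n = lp.single (E := fun _ : ℕ => ℝ) p n c := by
  unfold unitLp
  rw [← lp.single_smul]
  simp

theorem cp_converges {Y : Type u} [NormedAddCommGroup Y] [NormedSpace ℝ Y] [CompleteSpace Y]
    {x : ℕ → USM.XS} {y : ℕ → Y} (hx : NormalizedWeaklyNull x) (h : Generates x y) :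
    Converges y cp := by
  obtain ⟨hup, -⟩ := h.estimate hx
  apply converges_of_small
  intro η hη
  obtain ⟨R, hR⟩ := exists_pow_lt_of_lt_one (show 0 < η / 72 by positivity)
    (show (1 : ℝ) / 2 < 1 by norm_num)
  refine ⟨USM.L R, fun s t hs _ => ?_⟩
  have h2 := hup cp (Finset.Ico s t) _ (by positivity) (pbf_cp hs)
  rw [lt_div_iff₀ (by norm_num)] at hR
  linarith

theorem cp_not_converges (p : ENNReal) [Fact (1 ≤ p)] (hp : p ≠ ⊤) :
    ¬ Converges (unitLp p) cp := by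
  intro h
  obtain ⟨M, hM⟩ := h.small 1 one_pos
  set P : ℝ := p.toReal with hP
  have hP1 : 1 ≤ P := by
    have h1 : (1 : ENNReal) ≤ p := Fact.out
    have := (ENNReal.toReal_le_toReal ENNReal.one_ne_top hp).2 h1
    simpa using this
  set m : ℕ := ⌈P⌉₊ with hm
  set r : ℕ := m + 4 + M with hr
  have hrL : r ≤ USM.L r := by
    have := USM.succ_lt_L r
    omega
  have h1 := hM (USM.L r) (USM.L (r + 1)) ((show M ≤ r by omega).trans hrL)
    (USM.L_mono (Nat.le_succ r))
  have h2 : ‖∑ n ∈ Finset.Ico (USM.L r) (USM.L (r + 1)), cp n • unitLp p n‖ ^ P =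
      ∑ n ∈ Finset.Ico (USM.L r) (USM.L (r + 1)), ‖cp n‖ ^ P := by
    rw [← lp.norm_sum_single (by rw [← hP]; linarith) (fun n => cp n)]
    simp only [smul_unit]
    rfl
  have h3 : (1 : ℝ) ≤ ∑ n ∈ Finset.Ico (USM.L r) (USM.L (r + 1)), ‖cp n‖ ^ P := by
    set c : ℝ := (1 / 2) ^ r / ((r : ℝ) + 2) with hc
    have hc0 : 0 < c := by positivity
    have hc1 : c ≤ 1 := by
      rw [hc]
      apply div_le_one_of_le₀ _ (by positivity)
      have a1 : ((1 : ℝ) / 2) ^ r ≤ 1 := pow_le_one₀ (by norm_num) (by norm_num)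
      have a2 : (0 : ℝ) ≤ r := Nat.cast_nonneg _
      linarith
    have h4 : ∀ n ∈ Finset.Ico (USM.L r) (USM.L (r + 1)), c ^ m ≤ ‖cp n‖ ^ P := by
      intro n hn
      have h5 : cp n = c := by
        unfold cp
        rw [rho_block hn]
      rw [h5, Real.norm_of_nonneg hc0.le, ← Real.rpow_natCast]
      exact Real.rpow_le_rpow_of_exponent_ge hc0 hc1 (Nat.le_ceil P)
    refine le_trans ?_ (Finset.card_nsmul_le_sum _ _ _ h4)
    rw [Nat.card_Ico, nsmul_eq_mul]
    have h6 := long_block (m := m) (r := r) (by omega)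
    have h7 : (((2 ^ r * (r + 2)) ^ m : ℕ) : ℝ) ≤ ((USM.L (r + 1) - USM.L r : ℕ) : ℝ) := by
      exact_mod_cast h6
    have h8 : (((2 ^ r * (r + 2)) ^ m : ℕ) : ℝ) * c ^ m = 1 := by
      push_cast
      rw [← mul_pow, hc]
      have : (2 : ℝ) ^ r * ((r : ℝ) + 2) * ((1 / 2) ^ r / ((r : ℝ) + 2)) = 1 := by
        have h9 : ((1 : ℝ) / 2) ^ r = (2 ^ r)⁻¹ := by rw [one_div, inv_pow]
        rw [h9]
        field_simp
      rw [this, one_pow]
    calc (1 : ℝ) = (((2 ^ r * (r + 2)) ^ m : ℕ) : ℝ) * c ^ m := h8.symm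
      _ ≤ _ := mul_le_mul_of_nonneg_right h7 (by positivity)
  rw [← h2] at h3
  have h10 : ‖∑ n ∈ Finset.Ico (USM.L r) (USM.L (r + 1)), cp n • unitLp p n‖ ^ P < 1 :=
    Real.rpow_lt_one (norm_nonneg _) h1 (by linarith)
  linarith

/-- the coefficients of a series which converges in `c₀` but not in the model -/
noncomputable def cz (n : ℕ) : ℝ := 1 / ((rho n : ℝ) + 1)

theorem cz_pos (n : ℕ) : 0 < cz n := by unfold cz; positivity

theorem cz_converges [Fact (1 ≤ (⊤ : ENNReal))] : Converges (unitLp ⊤) cz := by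
  apply converges_of_small
  intro η hη
  obtain ⟨R, hR⟩ := exists_nat_one_div_lt hη
  refine ⟨USM.L R, fun s t hs _ => lt_of_le_of_lt ?_ hR⟩
  apply lp.norm_le_of_forall_le (by positivity)
  intro j
  simp only [smul_unit]
  rw [lp.coeFn_sum, Finset.sum_apply]
  by_cases hj : j ∈ Finset.Ico s t
  · rw [Finset.sum_eq_single j]
    · rw [lp.single_apply_self, Real.norm_of_nonneg (cz_pos j).le]
      unfold cz
      apply one_div_le_one_div_of_le (by positivity)
      have : (R : ℝ) ≤ rho j := by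
        exact_mod_cast le_rho (hs.trans (Finset.mem_Ico.1 hj).1)
      linarith
    · intro i _ hij
      rw [lp.single_apply_ne _ _ _ hij.symm]
    · intro h
      exact absurd hj h
  · rw [Finset.sum_eq_zero]
    · rw [norm_zero]; positivity
    · intro i hi
      have : j ≠ i := fun h => hj (h ▸ hi)
      rw [lp.single_apply_ne _ _ _ this]

theorem cz_not_converges {Y : Type u} [NormedAddCommGroup Y] [NormedSpace ℝ Y]
    {x : ℕ → USM.XS} {y : ℕ → Y} (hx : NormalizedWeaklyNull x) (h : Generates x y) :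
    ¬ Converges y cz := by
  intro hc
  obtain ⟨-, δ, hδ, hlow⟩ := h.estimate hx
  obtain ⟨M, hM⟩ := hc.small (δ / 2) (by positivity)
  set r := M with hr
  have hrL : r ≤ USM.L r := by
    have := USM.succ_lt_L r
    omega
  have h1 := hM (USM.L r) (USM.L (r + 1)) hrL (USM.L_mono (Nat.le_succ r))
  have h2 := (hlow cz (Finset.Ico (USM.L r) (USM.L (r + 1)))).2 (r + 1)
    (Finset.Ico (USM.L r) (USM.L (r + 1))) subset_rfl (by
      rw [Nat.card_Ico]; omega)
  have h3 : ∑ i ∈ Finset.Ico (USM.L r) (USM.L (r + 1)), |cz i| =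
      ((USM.L (r + 1) - USM.L r : ℕ) : ℝ) * (1 / ((r : ℝ) + 1)) := by
    rw [← Nat.card_Ico, ← nsmul_eq_mul, ← Finset.sum_const]
    refine Finset.sum_congr rfl fun i hi => ?_
    rw [abs_of_pos (cz_pos i)]
    unfold cz
    rw [rho_block hi]
  rw [h3, le_div_iff₀ hδ] at h2
  have h4 : (USM.L (r + 1) : ℝ) / 2 ≤ ((USM.L (r + 1) - USM.L r : ℕ) : ℝ) := by
    have h5 := two_mul_L_le r
    rw [Nat.cast_sub (by omega)]
    have h6 : 2 * (USM.L r : ℝ) ≤ (USM.L (r + 1) : ℝ) := by exact_mod_cast h5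
    linarith
  have h5 : (1 : ℝ) / 2 ≤ USM.w (r + 1) * (((USM.L (r + 1) - USM.L r : ℕ) : ℝ) *
      (1 / ((r : ℝ) + 1))) := by
    have h6 := USM.w_mul_L (r + 1)
    have h7 := USM.w_pos (r + 1)
    have h8 : (0 : ℝ) < (r : ℝ) + 1 := by positivity
    calc (1 : ℝ) / 2 ≤ ((((r + 1 : ℕ) : ℝ) + 1) / 2) * (1 / ((r : ℝ) + 1)) := by
          rw [mul_one_div, le_div_iff₀ h8]
          push_cast
          linarith
      _ = USM.w (r + 1) * ((USM.L (r + 1) : ℝ) / 2 * (1 / ((r : ℝ) + 1))) := by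
          rw [← h6]; ring
      _ ≤ _ := by
          apply mul_le_mul_of_nonneg_left _ h7.le
          exact mul_le_mul_of_nonneg_right h4 (by positivity)
  nlinarith

/-- a literal spreading model is not equivalent to the unit vector basis of `ℓ_p` or `c₀` -/
theorem not_equivalent_unit {Y : Type u} [NormedAddCommGroup Y] [NormedSpace ℝ Y]
    [CompleteSpace Y] {x : ℕ → USM.XS} {y : ℕ → Y} (hx : NormalizedWeaklyNull x)
    (h : Generates x y) (p : ENNReal) [Fact (1 ≤ p)] : ¬ Equivalent y (unitLp p) := by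
  intro he
  by_cases hp : p = ⊤
  · subst hp
    exact cz_not_converges hx h ((he cz).2 cz_converges)
  · exact cp_not_converges p hp ((he cp).1 (cp_converges hx h))

end Pool.Agent.Helper36.OWN
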